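import Pool.Agent.H369Z.Err.Spike
import Pool.Agent.H767Z.GrowthSq
import Pool.Agent.H25Z.Help.CrossLower
import Pool.Agent.H373Z.Err.WeightRemove

/-! The correlation of the partial sums of `F` and of `F G` is large. -/

set_option autoImplicit false

namespace Pool.Agent.H369Z.Err

open MeasureTheory Set Filter Topology Pool.Agent.H520Z.Sel

lemma ec_ram2 {c : ℕ → ℝ} (hc : ∀ p, |c p| ≤ 2) (ε : ℝ) (hε : 0 < ε) :
    ∃ C : ℝ, 0 ≤ C ∧ ∀ n : ℕ, 1 ≤ n → |ec c n| ≤ C * (n : ℝ) ^ ε := by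
  obtain ⟨C, hC⟩ := ec_ramanujan c (fun e he => by
    obtain ⟨P, hP⟩ := log_le_rpow_ev 2 e he
    exact ⟨P, fun p _ hp => by linarith [hc p, hP p hp, Real.log_natCast_nonneg p]⟩) ε hε
  refine ⟨C, ?_, hC⟩
  have := hC 1 le_rfl
  simp only [Nat.cast_one, Real.one_rpow, mul_one] at this
  exact (abs_nonneg _).trans this

lemma psum_le {a : ℕ → ℝ} {C ε : ℝ} (hC : 0 ≤ C) (hε : 0 ≤ ε)
    (ha : ∀ n : ℕ, 1 ≤ n → |a n| ≤ C * (n : ℝ) ^ ε) (n : ℕ) (hn : 1 ≤ n) :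
    |∑ m ∈ Finset.Icc 1 n, a m| ≤ C * (n : ℝ) ^ (1 + ε) := by
  have hn0 : (0 : ℝ) < n := by exact_mod_cast hn
  refine (Finset.abs_sum_le_sum_abs _ _).trans ?_
  have h : ∀ m ∈ Finset.Icc 1 n, |a m| ≤ C * (n : ℝ) ^ ε := by
    intro m hm
    rw [Finset.mem_Icc] at hm
    have : (m : ℝ) ≤ n := by exact_mod_cast hm.2
    exact (ha m hm.1).trans (by gcongr)
  refine (Finset.sum_le_card_nsmul _ _ _ h).trans ?_
  rw [nsmul_eq_mul, Real.rpow_add hn0, Real.rpow_one]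
  simp only [Nat.card_Icc, add_tsub_cancel_right]
  exact le_of_eq (by ring)

lemma small_tail {x : ℕ → ℝ} {γ σ : ℝ} (hγ : 0 < γ) (hσ : γ ≤ σ)
    (h1 : Summable (fun p : ℕ => |x p| * (p : ℝ) ^ (-γ)))
    (h2 : ∑' p : ℕ, |x p| * (p : ℝ) ^ (-γ) ≤ 1 / 12) (M : ℕ) :
    ∑ m ∈ Finset.Icc 2 M, |ec x m| * (m : ℝ) ^ (-σ) ≤ 1 / 2 := by
  have h3 : Summable fun p : Nat.Primes => |x p| * ((p : ℕ) : ℝ) ^ (-γ) :=
    h1.comp_injective Nat.Primes.coe_nat_injective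
  have h4 : ∑' p : Nat.Primes, |x p| * ((p : ℕ) : ℝ) ^ (-γ) ≤ 1 / 12 :=
    (h1.tsum_subtype_le (fun p : ℕ => |x p| * (p : ℝ) ^ (-γ)) {p : ℕ | p.Prime}
      (fun _ => by positivity)).trans h2
  have h5 := hasSum_ec_real (c := fun p : ℕ => |x p| * (p : ℝ) ^ (-γ)) (h3.congr fun p =>
    (abs_of_nonneg (by positivity)).symm)
  have h6 : ∀ m, 0 ≤ ec (fun p : ℕ => |x p| * (p : ℝ) ^ (-γ)) m :=
    ec_nonneg fun p => by positivity
  have h7 := sum_le_hasSum (insert 1 (Finset.Icc 2 M)) (fun m _ => h6 m) h5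
  rw [Finset.sum_insert (by simp), ec_one] at h7
  have h8 : Real.exp (∑' p : Nat.Primes, |x p| * ((p : ℕ) : ℝ) ^ (-γ)) ≤ 3 / 2 := by
    refine (Real.exp_le_exp.2 h4).trans ?_
    have := Real.exp_bound_div_one_sub_of_interval' (x := 1 / 12) (by norm_num) (by norm_num)
    norm_num at this ⊢
    linarith
  have h9 : ∑ m ∈ Finset.Icc 2 M, |ec x m| * (m : ℝ) ^ (-σ) ≤
      ∑ m ∈ Finset.Icc 2 M, ec (fun p : ℕ => |x p| * (p : ℝ) ^ (-γ)) m := by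
    refine Finset.sum_le_sum fun m hm => ?_
    rw [Finset.mem_Icc] at hm
    have : (1 : ℝ) ≤ m := by exact_mod_cast (by omega : 1 ≤ m)
    rw [ec_rpow, ← abs_ec]
    exact mul_le_mul_of_nonneg_left (Real.rpow_le_rpow_of_exponent_le this (by linarith))
      (abs_nonneg _)
  linarith

theorem core (w : ℝ → ℝ) (P : Polynomial ℝ) (hP : P ≠ 0) (η C1 : ℝ) (hη : 0 < η)
    (hw : ∀ x y : ℝ, IntervalIntegrable w volume x y)
    (hW : ∀ᶠ T : ℝ in atTop,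
      |(∫ t in (1 : ℝ)..T, w t) - T * P.eval (Real.log T)| ≤ C1 * T ^ (1 - η)) :
    ∃ (l1 l2 : ℕ) (Q1 Q2 : ℝ) (x1 x2 : ℕ → ℝ) (F G : ℂ → ℂ), 1 ≤ l1 ∧ 1 ≤ l2 ∧
      Exo l1 Q1 x1 F ∧ Exo l2 Q2 x2 G ∧ (∀ p, |x1 p| ≤ 1) ∧ (∀ p, |x2 p| ≤ 1) ∧
      ¬ ∃ C3 : ℝ, ∀ᶠ N : ℕ in atTop,
        |∑ n ∈ Finset.Ico 1 N, ((∑ m ∈ Finset.Icc 1 n, ec x1 m) *
          (∑ m ∈ Finset.Icc 1 n, ec (fun p => x2 p + x1 p) m)) *
            ∫ t in (n : ℝ)..((n : ℝ) + 1), w t| ≤ C3 * (N : ℝ) ^ (2 : ℝ) := by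
  obtain ⟨e, he0, he1, he2⟩ : ∃ e : ℝ, 0 < e ∧ e ≤ 1 ∧ e ≤ η :=
    ⟨min 1 η, lt_min one_pos hη, min_le_left _ _, min_le_right _ _⟩
  obtain ⟨m1, h1⟩ := exists_spike (1 - e / 8) (1 - e / 16) (by linarith) (by linarith) (by linarith)
  obtain ⟨m2, h2⟩ := exists_spike (3 / 5) (7 / 10) (by norm_num) (by norm_num) (by norm_num)
  obtain ⟨Q1, x1, F, hF, hx1, -, -, hbig⟩ := h1 ((⌈m1⌉₊ + 1 : ℕ) : ℝ)
    (by push_cast; linarith [Nat.le_ceil m1])
  obtain ⟨Q2, x2, G, hG, hx2, hs1, hs2, -⟩ := h2 ((⌈m2⌉₊ + 1 : ℕ) : ℝ)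
    (by push_cast; linarith [Nat.le_ceil m2])
  refine ⟨⌈m1⌉₊ + 1, ⌈m2⌉₊ + 1, Q1, Q2, x1, x2, F, G, by omega, by omega, hF, hG, hx1, hx2, ?_⟩
  rintro ⟨C3, hJ⟩
  obtain ⟨Ca, hCa, ha⟩ := ec_ram2 (c := x1) (fun p => by linarith [hx1 p]) (e / 8) (by linarith)
  obtain ⟨Cb, hCb, hb⟩ := ec_ram2 (c := fun p => x2 p + x1 p)
    (fun p => by linarith [hx1 p, hx2 p, abs_add_le (x2 p) (x1 p)]) (e / 8) (by linarith)
  have hA := psum_le hCa (by linarith) ha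
  have hB := psum_le hCb (by linarith) hb
  obtain ⟨K, hK⟩ := weight_remove (fun n => (∑ m ∈ Finset.Icc 1 n, ec x1 m) *
      (∑ m ∈ Finset.Icc 1 n, ec (fun p => x2 p + x1 p) m)) w P hP η (e / 4) (1 - e / 4) C1
      (8 * (Ca * Cb)) C3 (by linarith) (by linarith) (by linarith) hw hW
    (fun n hn => by
      have hn0 : (0 : ℝ) < n := by exact_mod_cast hn
      have e1 : (n : ℝ) ^ (2 + e / 4) = (n : ℝ) ^ (1 + e / 8) * (n : ℝ) ^ (1 + e / 8) := by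
        rw [← Real.rpow_add hn0]; congr 1; ring
      rw [abs_mul, e1]
      have k := mul_le_mul (hA n hn) (hB n hn) (abs_nonneg _) (by positivity)
      have : 0 ≤ Ca * Cb * ((n : ℝ) ^ (1 + e / 8) * (n : ℝ) ^ (1 + e / 8)) := by positivity
      nlinarith)
    (fun n hn => by
      have hn0 : (0 : ℝ) < n := by exact_mod_cast hn
      have hn1 : (1 : ℝ) ≤ n := by exact_mod_cast hn
      have k1 := ha (n + 1) (by omega)
      have k2 := hb (n + 1) (by omega)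
      have k3 := hB (n + 1) (by omega)
      have k4 : |∑ m ∈ Finset.Icc 1 n, ec x1 m| ≤ Ca * ((n + 1 : ℕ) : ℝ) ^ (1 + e / 8) :=
        (hA n hn).trans (by push_cast; gcongr; linarith)
      have e1 : ((n + 1 : ℕ) : ℝ) ^ (e / 8) * ((n + 1 : ℕ) : ℝ) ^ (1 + e / 8) ≤
          4 * (n : ℝ) ^ (1 + e / 4) := by
        rw [← Real.rpow_add (by positivity), show e / 8 + (1 + e / 8) = 1 + e / 4 by ring]
        calc ((n + 1 : ℕ) : ℝ) ^ (1 + e / 4) ≤ (2 * (n : ℝ)) ^ (1 + e / 4) := by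
              push_cast; gcongr; linarith
          _ = 2 ^ (1 + e / 4) * (n : ℝ) ^ (1 + e / 4) := Real.mul_rpow (by norm_num) hn0.le
          _ ≤ 2 ^ (2 : ℝ) * (n : ℝ) ^ (1 + e / 4) := by
              gcongr
              · norm_num
              · linarith
          _ = _ := by norm_num
      have e2 : (∑ m ∈ Finset.Icc 1 (n + 1), ec x1 m) *
          (∑ m ∈ Finset.Icc 1 (n + 1), ec (fun p => x2 p + x1 p) m) -
          (∑ m ∈ Finset.Icc 1 n, ec x1 m) * (∑ m ∈ Finset.Icc 1 n, ec (fun p => x2 p + x1 p) m) =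
          ec x1 (n + 1) * (∑ m ∈ Finset.Icc 1 (n + 1), ec (fun p => x2 p + x1 p) m) +
            ec (fun p => x2 p + x1 p) (n + 1) * (∑ m ∈ Finset.Icc 1 n, ec x1 m) := by
        rw [Finset.sum_Icc_succ_top (by omega), Finset.sum_Icc_succ_top (by omega)]
        ring
      rw [e2]
      refine (abs_add_le _ _).trans ?_
      rw [abs_mul, abs_mul]
      have m1 := mul_le_mul k1 k3 (abs_nonneg _) (by positivity)
      have m2 := mul_le_mul k2 k4 (abs_nonneg _) (by positivity)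
      have m3 := mul_le_mul_of_nonneg_left e1 (mul_nonneg hCa hCb)
      nlinarith) hJ
  have hcross := cross_lower (ec x1) (ec x2) (ec fun p => x2 p + x1 p) (1 - e / 4) (by linarith)
    (ec_add x2 x1) (ec_one x2) (small_tail (by norm_num) (by linarith) hs1 hs2)
  have hsum : Summable fun n : ℕ =>
      (∑ m ∈ Finset.Icc 1 n, ec x1 m) ^ 2 * (n : ℝ) ^ (-(2 * (1 - e / 4) + 1)) := by
    refine summable_of_sum_range_le (c := 2 * K) (fun n => by positivity) fun N => ?_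
    have k1 := hcross N
    have k2 := (le_abs_self _).trans (hK N)
    have k3 : ∑ n ∈ Finset.range N,
        (∑ m ∈ Finset.Icc 1 n, ec x1 m) ^ 2 * (n : ℝ) ^ (-(2 * (1 - e / 4) + 1)) ≤
        ∑ n ∈ insert 0 (Finset.Icc 1 N),
        (∑ m ∈ Finset.Icc 1 n, ec x1 m) ^ 2 * (n : ℝ) ^ (-(2 * (1 - e / 4) + 1)) := by
      refine Finset.sum_le_sum_of_subset_of_nonneg (fun n hn => ?_) fun n _ _ => by positivity
      rw [Finset.mem_range] at hn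
      rw [Finset.mem_insert, Finset.mem_Icc]
      omega
    rw [Finset.sum_insert (by simp)] at k3
    simp only [Finset.Icc_eq_empty_of_lt zero_lt_one, Finset.sum_empty] at k3
    linarith
  obtain ⟨Cc, -, hc⟩ := ec_ram2 (c := x1) (fun p => by linarith [hx1 p]) 1 one_pos
  obtain ⟨K', hK'⟩ := growth_of_sq (ec x1) Cc (1 - e / 4) (1 - e / 8) (by linarith) (by linarith)
    (fun n hn => by simpa using hc n hn) F hF.diff (fun s hs => hF.ser s (by linarith)) hsum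
  obtain ⟨s, hs1, hs2⟩ := hbig K'
  exact absurd (hK' s hs1.ge) (not_le.2 hs2)

end Pool.Agent.H369Z.Err
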