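import Mathlib

/-! The Selberg class with its degree, and the error term of the summatory function. -/

set_option autoImplicit false

namespace Pool.Agent.H369Z.Err

/-- `Q^s ∏ Γ(λ_j s + μ_j) F(s)` -/
noncomputable def completed (Q : ℝ) {k : ℕ} (lam : Fin k → ℝ) (μ : Fin k → ℂ) (F : ℂ → ℂ)
    (s : ℂ) : ℂ :=
  (Q : ℂ) ^ s * (∏ j, Complex.Gamma ((lam j : ℂ) * s + μ j)) * F s

/-- `F` is a member of the Selberg class of degree `d`, with Dirichlet coefficients `a`. -/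
structure InSelberg (a : ℕ → ℂ) (F : ℂ → ℂ) (d : ℝ) : Prop where
  series : ∀ s : ℂ, 1 < s.re → LSeriesSummable a s ∧ F s = LSeries a s
  continuation : ∃ (m : ℕ) (H : ℂ → ℂ), Differentiable ℂ H ∧
    (∃ A B : ℝ, ∀ s : ℂ, ‖H s‖ ≤ A * Real.exp (‖s‖ ^ B)) ∧
    ∀ s : ℂ, s ≠ 1 → H s = (s - 1) ^ m * F s
  functionalEquation : ∃ (Q : ℝ) (k : ℕ) (lam : Fin k → ℝ) (μ : Fin k → ℂ) (ω : ℂ),
    0 < Q ∧ (∀ j, 0 < lam j) ∧ (∀ j, 0 ≤ (μ j).re) ∧ ‖ω‖ = 1 ∧ d = 2 * ∑ j, lam j ∧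
    ∀ s : ℂ, s ≠ 0 → s ≠ 1 → (∀ j, ∀ n : ℕ, (lam j : ℂ) * s + μ j ≠ -(n : ℂ)) →
      (∀ j, ∀ n : ℕ, (lam j : ℂ) * (1 - starRingEnd ℂ s) + μ j ≠ -(n : ℂ)) →
      completed Q lam μ F s = ω * starRingEnd ℂ (completed Q lam μ F (1 - starRingEnd ℂ s))
  ramanujan : ∀ ε : ℝ, 0 < ε → ∃ C : ℝ, ∀ n : ℕ, 1 ≤ n → ‖a n‖ ≤ C * (n : ℝ) ^ ε
  one : a 1 = 1
  euler : ∃ (b : ℕ → ℂ) (θ C : ℝ), θ < 1 / 2 ∧ (∀ n : ℕ, ¬ IsPrimePow n → b n = 0) ∧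
    (∀ n : ℕ, 1 ≤ n → ‖b n‖ ≤ C * (n : ℝ) ^ θ) ∧
    ∀ s : ℂ, 1 < s.re → LSeriesSummable b s ∧ F s = Complex.exp (LSeries b s)

/-- The error term: the sum of `a n` over `1 ≤ n ≤ x` minus the residue of `F(s) x^s / s` at
`s = 1`, written as the integral over the circle of radius `1/2` about `1`. -/
noncomputable def err (a : ℕ → ℂ) (F : ℂ → ℂ) (x : ℝ) : ℂ :=
  ∑ n ∈ Finset.Icc 1 ⌊x⌋₊, a n -
    (2 * Real.pi * Complex.I)⁻¹ * ∮ s in C(1, 1 / 2), F s * (x : ℂ) ^ s / s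

end Pool.Agent.H369Z.Err
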