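import Pool.Agent.H369Z.Err.Core
import Pool.Agent.H369Z.Err.Defs
import Pool.Agent.H369Z.Pole.C

/-! The weighted correlation of two error terms. -/

set_option autoImplicit false

namespace Pool.Agent.H369Z.Err

open MeasureTheory Set Filter Topology Pool.Agent.H520Z.Sel

lemma err_entire (a : ℕ → ℂ) {F : ℂ → ℂ} (hF : Differentiable ℂ F) {x : ℝ} (hx : 0 < x) :
    err a F x = ∑ n ∈ Finset.Icc 1 ⌊x⌋₊, a n := by
  have hx' : (x : ℂ) ≠ 0 := by exact_mod_cast hx.ne'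
  have hd : ∀ s ∈ Metric.closedBall (1 : ℂ) (1 / 2),
      DifferentiableAt ℂ (fun s => F s * (x : ℂ) ^ s / s) s := by
    intro s hs
    have hs0 : s ≠ 0 := by
      rintro rfl
      simp at hs
      norm_num at hs
    exact ((hF s).mul (differentiableAt_id.const_cpow (Or.inl hx'))).div differentiableAt_id hs0
  have h0 : ∮ s in C(1, 1 / 2), F s * (x : ℂ) ^ s / s = 0 :=
    Complex.circleIntegral_eq_zero_of_differentiable_on_off_countable (by norm_num)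
      Set.countable_empty (fun s hs => (hd s hs).continuousAt.continuousWithinAt)
      (fun s hs => hd s (Metric.ball_subset_closedBall hs.1))
  unfold err
  rw [h0, mul_zero, sub_zero]

lemma prime_data {c : ℕ → ℝ} (hc : ∀ p, |c p| ≤ 2) :
    (∀ s : ℂ, 1 < s.re → LSeriesSummable (fun n => ((ec c n : ℝ) : ℂ)) s ∧
      LSeriesSummable (Pole.xP c) s ∧
      LSeries (fun n => ((ec c n : ℝ) : ℂ)) s = Complex.exp (LSeries (Pole.xP c) s)) ∧
    (∀ n : ℕ, ¬ IsPrimePow n → Pole.xP c n = 0) ∧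
    (∀ n : ℕ, 1 ≤ n → ‖Pole.xP c n‖ ≤ 2 * (n : ℝ) ^ (0 : ℝ)) := by
  have hb : ∀ n, ‖Pole.xP c n‖ ≤ 2 := by
    intro n
    unfold Pole.xP
    split_ifs
    · rw [Complex.norm_real]; exact hc n
    · simp
  refine ⟨fun s hs => ?_, fun n hn => ?_, fun n _ => by simpa using hb n⟩
  · have h : Summable fun n : ℕ => (n : ℝ) ^ (-s.re) := Real.summable_nat_rpow.2 (by linarith)
    have h2 : Summable fun p : Nat.Primes => ((p : ℕ) : ℝ) ^ (-s.re) :=
      h.comp_injective Nat.Primes.coe_nat_injective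
    have h3 : Summable fun p : Nat.Primes => |c p| * ((p : ℕ) : ℝ) ^ (-s.re) :=
      Summable.of_nonneg_of_le (fun p => by positivity)
        (fun p => mul_le_mul_of_nonneg_right (hc p) (by positivity)) (h2.mul_left 2)
    have h4 := LSeries_ec c s h3
    exact ⟨h4.LSeriesSummable,
      LSeriesSummable_of_bounded_of_one_lt_re (m := 2) (fun n _ => hb n) hs,
      by rw [h4.LSeries_eq, Pole.xP_LSeries]⟩
  · unfold Pole.xP
    rw [if_neg (fun hp => hn hp.isPrimePow)]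

lemma ram_c {c : ℕ → ℝ} (hc : ∀ p, |c p| ≤ 2) (ε : ℝ) (hε : 0 < ε) :
    ∃ C : ℝ, ∀ n : ℕ, 1 ≤ n → ‖((ec c n : ℝ) : ℂ)‖ ≤ C * (n : ℝ) ^ ε := by
  obtain ⟨C, -, hC⟩ := ec_ram2 hc ε hε
  exact ⟨C, fun n hn => by simpa using hC n hn⟩

lemma inS_one {lam Q : ℝ} {x : ℕ → ℝ} {F : ℂ → ℂ} (h : Exo lam Q x F) (hx : ∀ p, |x p| ≤ 1) :
    InSelberg (fun n => ((ec x n : ℝ) : ℂ)) F (2 * lam) := by
  have hc : ∀ p, |x p| ≤ 2 := fun p => by linarith [hx p]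
  obtain ⟨d1, d2, d3⟩ := prime_data hc
  obtain ⟨ρ, K, hK⟩ := h.order
  refine ⟨fun s hs => ⟨(d1 s hs).1, h.ser s hs⟩, ⟨0, F, h.diff, ⟨K, ρ, hK⟩, fun s _ => by simp⟩,
    ⟨Q, 1, fun _ => lam, fun _ => 0, 1, h.Q_pos, fun _ => h.lam_pos, fun _ => by simp, norm_one,
      by simp, fun s _ _ g1 g2 => ?_⟩, ram_c hc, by simp [ec_one],
    ⟨Pole.xP x, 0, 2, by norm_num, d2, d3, fun s hs =>
      ⟨(d1 s hs).2.1, by rw [h.ser s hs, (d1 s hs).2.2]⟩⟩⟩
  have := h.fe s (by simpa using g1 0) (by simpa using g2 0)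
  simpa [completed] using this

lemma order_mul {F G : ℂ → ℂ} (hF : ∃ ρ K : ℝ, ∀ s : ℂ, ‖F s‖ ≤ K * Real.exp (‖s‖ ^ ρ))
    (hG : ∃ ρ K : ℝ, ∀ s : ℂ, ‖G s‖ ≤ K * Real.exp (‖s‖ ^ ρ)) (hc : Continuous fun s => G s * F s) :
    ∃ A B : ℝ, ∀ s : ℂ, ‖G s * F s‖ ≤ A * Real.exp (‖s‖ ^ B) := by
  obtain ⟨r1, K1, h1⟩ := hF
  obtain ⟨r2, K2, h2⟩ := hG
  obtain ⟨M, hM⟩ := (isCompact_closedBall (0 : ℂ) 2).exists_bound_of_continuousOn hc.continuousOn
  refine ⟨max M (|K2| * |K1|), max r1 r2 + 1, fun s => ?_⟩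
  have hM0 : 0 ≤ max M (|K2| * |K1|) := le_max_of_le_right (by positivity)
  rcases le_total ‖s‖ 2 with h | h
  · refine (hM s (by simpa using h)).trans ((le_max_left _ (|K2| * |K1|)).trans ?_)
    exact le_mul_of_one_le_right hM0 (Real.one_le_exp (by positivity))
  · have k1 : ‖s‖ ^ r1 ≤ ‖s‖ ^ max r1 r2 :=
      Real.rpow_le_rpow_of_exponent_le (by linarith) (le_max_left _ _)
    have k2 : ‖s‖ ^ r2 ≤ ‖s‖ ^ max r1 r2 :=
      Real.rpow_le_rpow_of_exponent_le (by linarith) (le_max_right _ _)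
    have k3 : ‖s‖ ^ (max r1 r2 + 1) = ‖s‖ ^ max r1 r2 * ‖s‖ :=
      Real.rpow_add_one (by linarith) _
    have k4 : 0 ≤ ‖s‖ ^ max r1 r2 := by positivity
    have k5 : Real.exp (‖s‖ ^ r2) * Real.exp (‖s‖ ^ r1) ≤ Real.exp (‖s‖ ^ (max r1 r2 + 1)) := by
      rw [← Real.exp_add]
      exact Real.exp_le_exp.2 (by nlinarith)
    have k6 : ‖F s‖ ≤ |K1| * Real.exp (‖s‖ ^ r1) := (h1 s).trans (by gcongr; exact le_abs_self _)
    have k7 : ‖G s‖ ≤ |K2| * Real.exp (‖s‖ ^ r2) := (h2 s).trans (by gcongr; exact le_abs_self _)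
    rw [norm_mul]
    calc ‖G s‖ * ‖F s‖ ≤ |K2| * Real.exp (‖s‖ ^ r2) * (|K1| * Real.exp (‖s‖ ^ r1)) := by gcongr
      _ = |K2| * |K1| * (Real.exp (‖s‖ ^ r2) * Real.exp (‖s‖ ^ r1)) := by ring
      _ ≤ max M (|K2| * |K1|) * Real.exp (‖s‖ ^ (max r1 r2 + 1)) :=
        mul_le_mul (le_max_right _ _) k5 (by positivity) hM0

lemma inS_two {l1 l2 Q1 Q2 : ℝ} {x1 x2 : ℕ → ℝ} {F G : ℂ → ℂ} (h1 : Exo l1 Q1 x1 F)
    (h2 : Exo l2 Q2 x2 G) (hx1 : ∀ p, |x1 p| ≤ 1) (hx2 : ∀ p, |x2 p| ≤ 1) :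
    InSelberg (fun n => ((ec (fun p => x2 p + x1 p) n : ℝ) : ℂ)) (fun s => G s * F s)
      (2 * (l1 + l2)) := by
  have hc : ∀ p, |x2 p + x1 p| ≤ 2 := fun p => by
    linarith [hx1 p, hx2 p, abs_add_le (x2 p) (x1 p)]
  obtain ⟨d1, d2, d3⟩ := prime_data (c := fun p => x2 p + x1 p) hc
  obtain ⟨e1, -, -⟩ := prime_data (c := x1) (fun p => by linarith [hx1 p])
  obtain ⟨e2, -, -⟩ := prime_data (c := x2) (fun p => by linarith [hx2 p])
  have hexp : ∀ s : ℂ, 1 < s.re →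
      G s * F s = Complex.exp (LSeries (Pole.xP fun p => x2 p + x1 p) s) := by
    intro s hs
    have e : (Pole.xP fun p => x2 p + x1 p) = Pole.xP x2 + Pole.xP x1 := by
      funext n
      simp only [Pole.xP, Pi.add_apply]
      split_ifs <;> simp
    rw [e, LSeries_add (e2 s hs).2.1 (e1 s hs).2.1, Complex.exp_add, h1.ser s hs, h2.ser s hs,
      (e1 s hs).2.2, (e2 s hs).2.2]
  have hd : Differentiable ℂ fun s => G s * F s := h2.diff.mul h1.diff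
  refine ⟨fun s hs => ⟨(d1 s hs).1, by rw [hexp s hs, (d1 s hs).2.2]⟩,
    ⟨0, fun s => G s * F s, hd, order_mul h1.order h2.order hd.continuous, fun s _ => by simp⟩,
    ⟨Q1 * Q2, 2, ![l1, l2], fun _ => 0, 1, mul_pos h1.Q_pos h2.Q_pos, ?_, fun _ => by simp,
      norm_one, by simp, fun s _ _ g1 g2 => ?_⟩, ram_c hc, by simp [ec_one],
    ⟨_, 0, 2, by norm_num, d2, d3, fun s hs => ⟨(d1 s hs).2.1, hexp s hs⟩⟩⟩
  · intro j
    fin_cases j
    · simpa using h1.lam_pos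
    · simpa using h2.lam_pos
  · have k1 := h1.fe s (by simpa using g1 0) (by simpa using g2 0)
    have k2 := h2.fe s (by simpa using g1 1) (by simpa using g2 1)
    have e : ∀ z : ℂ, completed (Q1 * Q2) ![l1, l2] (fun _ => 0) (fun s => G s * F s) z =
        ((Q1 : ℂ) ^ z * Complex.Gamma (l1 * z) * F z) *
          ((Q2 : ℂ) ^ z * Complex.Gamma (l2 * z) * G z) := by
      intro z
      unfold completed
      rw [Fin.prod_univ_two, Complex.ofReal_mul,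
        Complex.mul_cpow_ofReal_nonneg h1.Q_pos.le h2.Q_pos.le]
      simp only [add_zero, Matrix.cons_val_zero, Matrix.cons_val_one]
      ring
    rw [e, e, one_mul, map_mul, ← k1, ← k2]

lemma step_integral (u : ℕ → ℝ) (w : ℝ → ℝ) (hw : ∀ x y : ℝ, IntervalIntegrable w volume x y)
    (f : ℝ → ℂ) (hf : ∀ x : ℝ, 0 < x → f x = ((u ⌊x⌋₊ * w x : ℝ) : ℂ)) (N : ℕ) (hN : 1 ≤ N) :
    ∫ x in (1 : ℝ)..(N : ℝ), f x =
      ((∑ n ∈ Finset.Ico 1 N, u n * ∫ t in (n : ℝ)..((n : ℝ) + 1), w t : ℝ) : ℂ) := by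
  have hae : ∀ n : ℕ, 1 ≤ n → ∀ x ∈ Set.Ioo (n : ℝ) ((n : ℝ) + 1),
      f x = ((u n * w x : ℝ) : ℂ) := by
    intro n hn x hx
    have hn0 : (0 : ℝ) < n := by exact_mod_cast hn
    rw [hf x (by linarith [hx.1]), (Nat.floor_eq_iff (by linarith [hx.1])).2 ⟨hx.1.le, hx.2⟩]
  have hint : ∀ n : ℕ, 1 ≤ n → IntervalIntegrable f volume (n : ℝ) ((n : ℝ) + 1) := by
    intro n hn
    have h1 : IntervalIntegrable (fun x => ((u n * w x : ℝ) : ℂ)) volume (n : ℝ) ((n : ℝ) + 1) :=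
      ⟨((hw _ _).const_mul (u n)).1.ofReal, ((hw _ _).const_mul (u n)).2.ofReal⟩
    rw [intervalIntegrable_iff_integrableOn_Ioo_of_le (by linarith)] at h1 ⊢
    exact h1.congr_fun (fun x hx => (hae n hn x hx).symm) measurableSet_Ioo
  have hval : ∀ n : ℕ, 1 ≤ n → ∫ x in (n : ℝ)..((n : ℝ) + 1), f x =
      ((u n * ∫ t in (n : ℝ)..((n : ℝ) + 1), w t : ℝ) : ℂ) := by
    intro n hn
    rw [← intervalIntegral.integral_const_mul, ← intervalIntegral.integral_ofReal,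
      intervalIntegral.integral_of_le (by linarith), intervalIntegral.integral_of_le (by linarith),
      integral_Ioc_eq_integral_Ioo, integral_Ioc_eq_integral_Ioo]
    exact setIntegral_congr_fun measurableSet_Ioo (hae n hn)
  have h := intervalIntegral.sum_integral_adjacent_intervals_Ico (f := f) (μ := volume)
    (a := fun n : ℕ => (n : ℝ)) hN (fun n hn => by
      have := hint n hn.1
      push_cast
      exact this)
  rw [Nat.cast_one] at h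
  rw [← h, Complex.ofReal_sum]
  refine Finset.sum_congr rfl fun n hn => ?_
  rw [← hval n (Finset.mem_Ico.1 hn).1]
  push_cast
  rfl

theorem weighted (w : ℝ → ℝ) (P : Polynomial ℝ) (hP : P ≠ 0) (η C1 : ℝ) (hη : 0 < η)
    (hw : ∀ x y : ℝ, IntervalIntegrable w volume x y)
    (hW : ∀ᶠ T : ℝ in atTop,
      |(∫ t in (1 : ℝ)..T, w t) - T * P.eval (Real.log T)| ≤ C1 * T ^ (1 - η)) :
    ∃ (d₁ d₂ : ℕ) (a₁ a₂ : ℕ → ℂ) (F₁ F₂ : ℂ → ℂ), 2 ≤ d₁ ∧ d₁ < d₂ ∧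
      InSelberg a₁ F₁ d₁ ∧ InSelberg a₂ F₂ d₂ ∧
      ¬ ∃ C T₀ : ℝ, ∀ T : ℝ, T₀ ≤ T →
        ‖∫ x in (1 : ℝ)..T, err a₁ F₁ x * err a₂ F₂ x * (w x : ℂ)‖ ≤ C * T ^ (2 : ℝ) := by
  obtain ⟨l1, l2, Q1, Q2, x1, x2, F, G, hl1, hl2, hF, hG, hx1, hx2, hno⟩ :=
    core w P hP η C1 hη hw hW
  refine ⟨2 * l1, 2 * (l1 + l2), _, _, F, fun s => G s * F s, by omega, by omega,
    by exact_mod_cast inS_one hF hx1, by exact_mod_cast inS_two hF hG hx1 hx2, ?_⟩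
  rintro ⟨C, T₀, hC⟩
  refine hno ⟨C, ?_⟩
  filter_upwards [(tendsto_natCast_atTop_atTop (R := ℝ)).eventually_ge_atTop T₀,
    eventually_ge_atTop 1] with N h1 h2
  have k := hC N h1
  rw [step_integral (fun n => (∑ m ∈ Finset.Icc 1 n, ec x1 m) *
    (∑ m ∈ Finset.Icc 1 n, ec (fun p => x2 p + x1 p) m)) w hw _ (fun x hx => by
      rw [err_entire _ hF.diff hx, err_entire (F := fun s => G s * F s) _ (hG.diff.mul hF.diff) hx]
      push_cast
      rfl) N h2, Complex.norm_real, Real.norm_eq_abs] at k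
  exact k

end Pool.Agent.H369Z.Err
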