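import Pool.Agent.H520Z.Sel.Assemble

/-! The existence theorem for Euler products, with the smallness of the solution exported.
The proofs are those of `contraction` (helper404) and `assemble` (helper520). -/

set_option autoImplicit false

namespace Pool.Agent.H369Z.Err

open MeasureTheory Set Filter Topology Pool.Agent.H520Z.Sel Pool.Agent.H520Z.Sel.H404

theorem contraction2 (K : ℝ) (hK : 0 ≤ K) : ∃ δ : ℝ, 0 < δ ∧
    ∀ (H : Type) (ev : H → ℕ → ℝ) (B : ℕ → Finset ℕ) (v : ℕ → ℝ) (r : ℕ → ℕ → ℝ),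
      (∀ j, (B j).Nonempty) → (∀ j, ∀ p ∈ B j, p.Prime) →
      (∀ i j, i ≠ j → Disjoint (B i) (B j)) → (∀ j, ∀ p ∈ B j, |v p| ≤ 1) →
      (∀ n, 1 ≤ n → Summable (fun j => |r n j|) ∧ ∑' j, |r n j| ≤ K) → ∑' j, |r 1 j| ≤ δ →
      (∀ h, ∃ M : ℝ, ∀ n, 1 ≤ n → |ev h n| ≤ M) →
      (∀ h n, 1 ≤ n →
        HasSum (fun j => r n j * ((∑ p ∈ B j, v p * ev h p) / ((B j).card : ℝ))) (ev h n)) →
      ∃ m u : ℕ → ℝ, (∀ j, |m j| ≤ 1) ∧
        (∀ j, ∀ p ∈ B j, u p = m j * v p / ((B j).card : ℝ)) ∧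
        (∀ p, (∀ j, p ∉ B j) → u p = 0) ∧ Summable (fun p => |u p|) ∧ ∑' p, |u p| ≤ 1 / 12 ∧
        ∀ h, HasSum (fun n => ec u n * ev h n) 0 := by
  classical
  set ρ : ℝ := 1 / (12 * (K + 1)) with hρ
  have ρ0 : 0 < ρ := by positivity
  have ρK : ρ * (12 * (K + 1)) = 1 := by rw [hρ]; field_simp
  have ρ1 : ρ ≤ 1 / 12 := by nlinarith
  refine ⟨ρ / 2, by positivity, fun H ev B v r hne hpr hdis hv hr hr1 hev hrep => ?_⟩
  let w : ℕ → ℕ → ℝ := fun j p => if p ∈ B j then v p / ((B j).card : ℝ) else 0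
  have hcard : ∀ j, (0 : ℝ) < (B j).card := fun j => by exact_mod_cast (hne j).card_pos
  have hw : ∀ j, Summable (fun p => |w j p|) ∧ ∑' p, |w j p| ≤ 1 := by
    intro j
    have h1 : HasSum (fun p => |w j p|) (∑ p ∈ B j, |w j p|) :=
      hasSum_sum_of_ne_finset_zero fun p hp => by simp [w, hp]
    refine ⟨h1.summable, ?_⟩
    rw [h1.tsum_eq]
    calc ∑ p ∈ B j, |w j p| ≤ ∑ p ∈ B j, 1 / ((B j).card : ℝ) := by
          refine Finset.sum_le_sum fun p hp => ?_
          simp only [w, if_pos hp]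
          rw [abs_div, abs_of_pos (hcard j)]
          exact div_le_div_of_nonneg_right (hv j p hp) (hcard j).le
      _ = 1 := by
          rw [Finset.sum_const, nsmul_eq_mul]
          have := hcard j
          field_simp
  let r' : ℕ → ℕ → ℝ := fun n j => if n = 0 then 0 else r n j
  have hr' : ∀ n, Summable (fun j => |r' n j|) ∧ ∑' j, |r' n j| ≤ K := by
    intro n
    by_cases h : n = 0
    · simp only [r', if_pos h, abs_zero, tsum_zero]; exact ⟨summable_zero, hK⟩
    · simp only [r', if_neg h]; exact hr n (by omega)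
  have hu0 : ∀ m : ℕ → ℝ, ∀ p, (∀ j, p ∉ B j) → mat w m p = 0 := by
    intro m p hp
    simp [mat, w, hp]
  have hup : ∀ m : ℕ → ℝ, ∀ p, ¬ p.Prime → mat w m p = 0 := fun m p hp =>
    hu0 m p fun j hj => hp (hpr j p hj)
  have hgs : ∀ m : ℕ → ℝ, Summable (fun j => |m j|) → ∑' j, |m j| ≤ ρ →
      Summable (fun n => |gc (mat w m) n|) ∧ ∑' n, |gc (mat w m) n| ≤ 2 * ρ * ρ := by
    intro m hm hb
    obtain ⟨a1, a2⟩ := mat_bound hw hm
    have := gc_diff (u := mat w m) (u' := fun _ => 0) a1 (by simpa using summable_zero) (hup m)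
      (fun _ _ => rfl) (t := ρ) (by linarith) (by simp; linarith)
    simp only [gc_zero, sub_zero] at this
    refine ⟨this.1, this.2.trans ?_⟩
    gcongr
    linarith
  let Φ : (ℕ → ℝ) → (ℕ → ℝ) := fun m j => -r 1 j - mat r' (gc (mat w m)) j
  obtain ⟨m, hm, hmb, hfix⟩ := fixedpt ρ ρ0.le Φ (by
      intro m hm hb
      obtain ⟨g1, g2⟩ := hgs m hm hb
      obtain ⟨a1, a2⟩ := mat_bound hr' g1
      have hle : ∀ j, |Φ m j| ≤ |r 1 j| + |mat r' (gc (mat w m)) j| := fun j => by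
        have := abs_sub (-r 1 j) (mat r' (gc (mat w m)) j)
        rwa [abs_neg] at this
      have s1 := (hr 1 le_rfl).1
      have s2 := Summable.of_nonneg_of_le (fun _ => abs_nonneg _) hle (s1.add a1)
      refine ⟨s2, (s2.tsum_le_tsum hle (s1.add a1)).trans ?_⟩
      rw [s1.tsum_add a1]
      have : K * ∑' n, |gc (mat w m) n| ≤ K * (2 * ρ * ρ) := by gcongr
      nlinarith) (by
      intro m m' hm hb hm' hb'
      obtain ⟨g1, -⟩ := hgs m hm hb
      obtain ⟨g1', -⟩ := hgs m' hm' hb'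
      obtain ⟨a1, a2⟩ := mat_bound hw hm
      obtain ⟨a1', a2'⟩ := mat_bound hw hm'
      have hd : Summable fun j => |m j - m' j| := (hm.of_abs.sub hm'.of_abs).abs
      obtain ⟨-, b2⟩ := mat_bound hw hd
      simp_rw [← mat_sub hw hm hm'] at b2
      have hdb : ∑' j, |m j - m' j| ≤ 2 * ρ := by
        refine (hd.tsum_le_tsum (fun j => abs_sub (m j) (m' j)) (hm.add hm')).trans ?_
        rw [hm.tsum_add hm']; linarith
      obtain ⟨c1, c2⟩ := gc_diff a1 a1' (hup m) (hup m') (t := 3 * ρ) (by linarith) (by linarith)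
      obtain ⟨-, d2⟩ := mat_bound hr' c1
      have e : ∀ j, |Φ m j - Φ m' j| =
          |mat r' (fun n => gc (mat w m) n - gc (mat w m') n) j| := fun j => by
        rw [← mat_sub hr' g1 g1', ← abs_neg]
        congr 1
        simp only [Φ]; ring
      simp_rw [e]
      have D0 : 0 ≤ ∑' j, |m j - m' j| := tsum_nonneg fun _ => abs_nonneg _
      have f1 : 2 * (3 * ρ) * ∑' p, |mat w m p - mat w m' p| ≤ 2 * (3 * ρ) * ∑' j, |m j - m' j| :=
        mul_le_mul_of_nonneg_left (by linarith) (by positivity)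
      have f2 : K * ∑' n, |gc (mat w m) n - gc (mat w m') n| ≤
          K * (2 * (3 * ρ) * ∑' j, |m j - m' j|) :=
        mul_le_mul_of_nonneg_left (by linarith) hK
      have f3 : K * (2 * (3 * ρ)) ≤ 1 / 2 := by nlinarith
      nlinarith)
  obtain ⟨a1, a2⟩ := mat_bound hw hm
  refine ⟨m, mat w m, fun j => ?_, fun j p hp => ?_, hu0 m, a1, by linarith, fun h => ?_⟩
  · have := hm.le_tsum j fun _ _ => abs_nonneg _
    linarith
  · unfold mat
    rw [tsum_eq_single j]
    · simp only [w, if_pos hp]; ring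
    · intro i hi
      have : p ∉ B i := Finset.disjoint_right.1 (hdis i j hi) hp
      simp [w, this]
  · obtain ⟨M, hM⟩ := hev h
    set σ : ℕ → ℝ := fun j => (∑ p ∈ B j, v p * ev h p) / ((B j).card : ℝ) with hσ
    have M0 : 0 ≤ M := (abs_nonneg _).trans (hM 1 le_rfl)
    have hσb : ∀ j, |σ j| ≤ M := by
      intro j
      rw [hσ]
      simp only
      rw [abs_div, abs_of_pos (hcard j), div_le_iff₀ (hcard j)]
      refine (Finset.abs_sum_le_sum_abs _ _).trans ?_
      rw [mul_comm, ← nsmul_eq_mul, ← Finset.sum_const]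
      refine Finset.sum_le_sum fun p hp => ?_
      rw [abs_mul]
      have := mul_le_mul (hv j p hp) (hM p (hpr j p hp).one_lt.le) (abs_nonneg _) zero_le_one
      linarith
    let e' : ℕ → ℝ := fun n => if n = 0 then 0 else ev h n
    obtain ⟨S1, s1, t1⟩ := mat_fubini hr' (hgs m hm hmb).1 σ e' M hσb (fun n => by
      by_cases h0 : n = 0
      · simp only [r', e', if_pos h0, zero_mul]; exact hasSum_zero
      · simp only [r', e', if_neg h0]; exact hrep h n (by omega))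
    obtain ⟨S2, s2, t2⟩ := mat_fubini hw hm e' σ M (fun n => by
      by_cases h0 : n = 0
      · simp only [e', if_pos h0, abs_zero]; exact M0
      · simp only [e', if_neg h0]; exact hM n (by omega)) (fun j => by
      have h1 : HasSum (fun p => w j p * e' p) (∑ p ∈ B j, w j p * e' p) :=
        hasSum_sum_of_ne_finset_zero fun p hp => by simp [w, hp]
      convert h1 using 1
      rw [hσ]
      simp only
      rw [Finset.sum_div]
      refine Finset.sum_congr rfl fun p hp => ?_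
      simp only [w, e', if_pos hp, if_neg (hpr j p hp).ne_zero]
      ring)
    have t3 := hrep h 1 le_rfl
    have hz : S1 + ev h 1 + S2 = 0 := by
      refine ((t1.add t3).add s2).unique ?_
      convert hasSum_zero using 1
      ext j
      have := congrFun hfix j
      simp only [Φ] at this
      change mat r' (gc (mat w m)) j * σ j + r 1 j * σ j + m j * σ j = 0
      linear_combination (-σ j) * this
    rw [← hz]
    convert (s1.add (hasSum_ite_eq 1 (ev h 1))).add t2 using 1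
    ext n
    rw [ec_split (hup m) n]
    by_cases h0 : n = 0
    · subst h0
      simp [e', gc, hup m 0 Nat.not_prime_zero]
    · simp only [e', if_neg h0]
      split_ifs with h1
      · subst h1; ring
      · ring

theorem assemble2 (γ : ℝ) (hγ : γ < 1) : ∃ L : ℕ, 1 ≤ L ∧
    ∀ (V : Submodule ℝ (ℝ → ℝ)) (lam c c1 C0 : ℝ), 0 < c1 → c1 < c - 1 → 0 ≤ C0 →
      (L : ℝ) * (c - c1) ≤ lam → c ≤ γ * lam → Poin V c c1 C0 →
      (∀ h ∈ V, ∃ K : ℝ, ∀ y, 0 < y → (y ^ (c + 1) + y ^ (c - 1)) * |h y| ≤ K) →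
      ∃ η0 : ℝ, 0 < η0 ∧ ∃ δ : ℝ, 0 < δ ∧ ∀ η : ℝ, 0 < η → η ≤ η0 → ∀ ℓ : V →ₗ[ℝ] ℝ,
        (∀ (h : V) (N : ℝ), (∀ y, 0 < y → (y ^ c + y ^ (c - 1)) * |(h : ℝ → ℝ) y| ≤ N) →
          |ℓ h| ≤ δ * N) →
        ∃ x : ℕ → ℝ, (∀ p, |x p| ≤ 1) ∧ Summable (fun p : ℕ => |x p| * (p : ℝ) ^ (-(c / lam))) ∧
          ∑' p : ℕ, |x p| * (p : ℝ) ^ (-(c / lam)) ≤ 1 / 12 ∧
          ∀ h : V, HasSum (fun n : ℕ => ec x n * (h : ℝ → ℝ) (η * (n : ℝ) ^ (1 / lam))) (ℓ h) := by
  classical
  obtain ⟨L, hL1, R0, hR0, hblk⟩ := prime_blocks γ hγ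
  refine ⟨L, hL1, ?_⟩
  intro V lam c c1 C0 hc1 hc hC0 hlamL hcγ hP hD
  have hL1' : (1 : ℝ) ≤ L := by exact_mod_cast hL1
  have hlam1 : 1 < lam := by nlinarith
  have hlam : 0 < lam := by linarith
  have hc0 : 0 < c := by linarith
  set α : ℝ := L / lam with hα
  have hα0 : 0 < α := by positivity
  have hα1 : α * (c - c1) ≤ 1 := by
    rw [hα, div_mul_eq_mul_div, div_le_one hlam]; exact hlamL
  obtain ⟨ε, C, hε, hC, hrep⟩ := sampling_fun V c c1 C0 α hc1 hc hC0 hα0 hα1 hP hD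
  obtain ⟨δ1, hδ1, hcon⟩ := contraction2 (C + 1) (by positivity)
  obtain ⟨δ0, hδ0, hδ01, hδ02⟩ : ∃ δ0 : ℝ, 0 < δ0 ∧ δ0 ≤ δ1 ∧ δ0 ≤ 1 :=
    ⟨min δ1 1, by positivity, min_le_left _ _, min_le_right _ _⟩
  set τ : ℝ := c / lam with hτ
  have hτ0 : 0 < τ := by positivity
  have hτγ : τ ≤ γ := by rw [hτ, div_le_iff₀ hlam]; exact hcγ
  refine ⟨min (min 1 (ε / R0)) (δ0 / (2 * (C + 1))), by positivity, δ0 / (2 * (C + 1)),
    by positivity, ?_⟩
  intro η hη hη0 ℓ hℓ
  have hη1 : η ≤ 1 := hη0.trans ((min_le_left _ _).trans (min_le_left _ _))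
  have hη2 : η ≤ ε / R0 := hη0.trans ((min_le_left _ _).trans (min_le_right _ _))
  have hη3 : η ≤ δ0 / (2 * (C + 1)) := hη0.trans (min_le_right _ _)
  set R : ℝ := (ε / η) ^ lam with hR
  have hR1 : R0 ≤ ε / η := by
    rw [le_div_iff₀ hη]
    rw [le_div_iff₀ (by linarith)] at hη2
    linarith
  have hRR : R0 ≤ R := by
    calc R0 ≤ ε / η := hR1
      _ = (ε / η) ^ (1 : ℝ) := (Real.rpow_one _).symm
      _ ≤ R := Real.rpow_le_rpow_of_exponent_le (by linarith) hlam1.le
  have hRpos : 0 < R := by linarith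
  set yy : ℕ → ℝ := fun n => η * (n : ℝ) ^ (1 / lam) with hyy
  have hyx : ∀ m : ℝ, 0 < m → η * (R * m ^ L) ^ (1 / lam) = ε * m ^ α := by
    intro m hm
    rw [Real.mul_rpow hRpos.le (by positivity), hR, ← Real.rpow_mul (by positivity),
      mul_one_div_cancel hlam.ne', Real.rpow_one, ← Real.rpow_natCast, ← Real.rpow_mul hm.le, hα]
    field_simp
  set B : ℕ → Finset ℕ := fun j => blk R L j with hB
  set X : ℕ → ℝ := fun j => R * ((j : ℝ) + 1) ^ L with hX
  have hX1 : ∀ j, 1 ≤ X j := by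
    intro j
    have hj : (1 : ℝ) ≤ (j : ℝ) + 1 := by have := Nat.cast_nonneg (α := ℝ) j; linarith
    have := one_le_pow₀ (n := L) hj
    simp only [hX]
    nlinarith
  have hcard : ∀ j, X j ^ τ ≤ ((B j).card : ℝ) := fun j =>
    (Real.rpow_le_rpow_of_exponent_le (hX1 j) hτγ).trans (hblk R hRR j)
  have hXτ : ∀ j, 1 ≤ X j ^ τ := fun j => Real.one_le_rpow (hX1 j) hτ0.le
  have hne : ∀ j, (B j).Nonempty := fun j => by
    rw [← Finset.card_pos]
    have := (hXτ j).trans (hcard j)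
    exact_mod_cast (lt_of_lt_of_le one_pos this : (0 : ℝ) < _)
  have hdisj : ∀ i j, i ≠ j → Disjoint (B i) (B j) := fun i j hij => blk_disjoint hRpos L hij
  set S : ℕ → V →ₗ[ℝ] ℝ := fun j => avgL V (B j) yy with hS
  have hyin : ∀ j, ∀ p ∈ B j,
      yy p ∈ Icc (ε * ((j : ℝ) + 1) ^ α) (ε * ((j : ℝ) + 2) ^ α) := by
    intro j p hp
    obtain ⟨-, h1, h2⟩ := mem_blk hRpos hp
    rw [← hyx _ (by positivity), ← hyx _ (by positivity)]
    constructor
    · exact mul_le_mul_of_nonneg_left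
        (Real.rpow_le_rpow (by positivity) h1.le (by positivity)) hη.le
    · exact mul_le_mul_of_nonneg_left
        (Real.rpow_le_rpow (by positivity) h2 (by positivity)) hη.le
  have hrep' := hrep S (fun j h => by
    obtain ⟨p, hp, q, hq, h1, h2⟩ := avg_between (B j) (hne j) (fun p => (h : ℝ → ℝ) (yy p))
    refine ⟨yy p, hyin j p hp, yy q, hyin j q hq, ?_, ?_⟩
    · simpa only [hS, avgL_apply] using h1
    · simpa only [hS, avgL_apply] using h2)
  -- weights
  have hYX : ∀ j : ℕ, (X j ^ τ)⁻¹ = η ^ c * (ε * ((j : ℝ) + 1) ^ α) ^ (-c) := by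
    intro j
    have hx0 : 0 < X j := lt_of_lt_of_le one_pos (hX1 j)
    rw [← hyx _ (by positivity), Real.mul_rpow hη.le (by positivity), ← mul_assoc,
      ← Real.rpow_add hη, add_neg_cancel, Real.rpow_zero, one_mul, ← Real.rpow_neg hx0.le,
      ← Real.rpow_mul hx0.le, hτ]
    congr 1
    field_simp
  have hyc : ∀ n : ℕ, 1 ≤ n → yy n ^ c = η ^ c * (n : ℝ) ^ τ := by
    intro n hn
    simp only [hyy]
    rw [Real.mul_rpow hη.le (by positivity), ← Real.rpow_mul (by positivity), hτ]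
    congr 2
    field_simp
  have hypos : ∀ n : ℕ, 1 ≤ n → 0 < yy n := by
    intro n hn
    have : (0 : ℝ) < n := by exact_mod_cast hn
    simp only [hyy]
    positivity
  -- functionals
  let evL : ℝ → V →ₗ[ℝ] ℝ := fun y =>
    (LinearMap.proj (R := ℝ) (φ := fun _ : ℝ => ℝ) y).comp V.subtype
  have hevL : ∀ y (h : V), evL y h = (h : ℝ → ℝ) y := fun y h => rfl
  let φ : ℕ → V →ₗ[ℝ] ℝ := fun n => if n = 1 then evL (yy 1) - ℓ else ((n : ℝ) ^ τ) • evL (yy n)
  have hηc : 0 < η ^ c := Real.rpow_pos_of_pos hη c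
  have hφ : ∀ n : ℕ, 1 ≤ n → ∀ (h : V) (N : ℝ),
      (∀ y, 0 < y → (y ^ c + y ^ (c - 1)) * |(h : ℝ → ℝ) y| ≤ N) →
      |φ n h| ≤ (if n = 1 then (δ0 / (C + 1)) else 1) / η ^ c * N := by
    intro n hn h N hN
    have hyn := hypos n hn
    have h1 := hN _ hyn
    have hN0 : 0 ≤ N := le_trans (by positivity) h1
    split_ifs with hn1
    · subst hn1
      have h2 : yy 1 = η := by simp [hyy]
      simp only [φ, if_true, LinearMap.sub_apply, hevL, h2]
      rw [h2] at h1
      have h3 : η ^ (c - 1) * |(h : ℝ → ℝ) η| ≤ N := by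
        have : 0 ≤ η ^ c * |(h : ℝ → ℝ) η| := by positivity
        nlinarith
      have h4 : η ^ (c - 1) = η ^ c / η := by rw [Real.rpow_sub hη, Real.rpow_one]
      have h5 : |(h : ℝ → ℝ) η| ≤ δ0 / (2 * (C + 1)) / η ^ c * N := by
        rw [h4, div_mul_eq_mul_div, div_le_iff₀ hη] at h3
        rw [div_mul_eq_mul_div, le_div_iff₀ hηc]
        nlinarith
      have h6 : |ℓ h| ≤ δ0 / (2 * (C + 1)) / η ^ c * N := by
        refine (hℓ h N hN).trans (mul_le_mul_of_nonneg_right ?_ hN0)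
        rw [le_div_iff₀ hηc]
        have : η ^ c ≤ 1 := Real.rpow_le_one hη.le hη1 hc0.le
        have h7 : 0 < δ0 / (2 * (C + 1)) := by positivity
        nlinarith
      calc _ ≤ |(h : ℝ → ℝ) η| + |ℓ h| := abs_sub _ _
        _ ≤ _ := add_le_add h5 h6
        _ = _ := by field_simp; ring
    · simp only [φ, hn1, if_false, LinearMap.smul_apply, hevL, smul_eq_mul]
      rw [abs_mul, abs_of_nonneg (by positivity), one_div, inv_mul_eq_div, le_div_iff₀ hηc]
      have h2 : 0 ≤ yy n ^ (c - 1) * |(h : ℝ → ℝ) (yy n)| := by positivity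
      have h3 := hyc n hn
      calc _ = yy n ^ c * |(h : ℝ → ℝ) (yy n)| := by rw [h3]; ring
        _ ≤ N := by nlinarith
  have hr : ∀ n : ℕ, ∃ r : ℕ → ℝ, 1 ≤ n → (Summable (fun j => |r j|) ∧
      ∑' j, |r j| ≤ C * (if n = 1 then (δ0 / (C + 1)) else 1) ∧
      ∀ h : V, HasSum (fun j => r j * (X j ^ τ * S j h)) (φ n h)) := by
    intro n
    by_cases hn : 1 ≤ n
    swap
    · exact ⟨0, fun h => absurd h hn⟩
    obtain ⟨r, hr1, hr2, hr3⟩ := hrep' (φ n) _ (by split_ifs <;> positivity) (hφ n hn)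
    have he : ∀ j, |r j * (X j ^ τ)⁻¹| = η ^ c * (|r j| * (ε * ((j : ℝ) + 1) ^ α) ^ (-c)) := by
      intro j
      rw [abs_mul, abs_of_nonneg (a := (X j ^ τ)⁻¹) (by have := hXτ j; positivity), hYX]
      ring
    refine ⟨fun j => r j * (X j ^ τ)⁻¹, fun _ => ⟨?_, ?_, fun h => ?_⟩⟩
    · simp_rw [he]
      exact hr1.mul_left _
    · simp_rw [he]
      rw [tsum_mul_left]
      calc _ ≤ η ^ c * (C * ((if n = 1 then (δ0 / (C + 1)) else 1) / η ^ c)) :=
            mul_le_mul_of_nonneg_left hr2 hηc.le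
        _ = _ := by field_simp
    · convert hr3 h using 2 with j
      have := hXτ j
      field_simp
  choose r hr using hr
  let jj : ℕ → ℕ := fun p => if h : ∃ j, p ∈ B j then h.choose else 0
  have hjj : ∀ j, ∀ p ∈ B j, jj p = j := by
    intro j p hp
    have h : ∃ j, p ∈ B j := ⟨j, hp⟩
    simp only [jj, h, dif_pos]
    by_contra hne'
    exact Finset.disjoint_left.1 (hdisj _ _ hne') h.choose_spec hp
  let v : ℕ → ℝ := fun p => X (jj p) ^ τ / (p : ℝ) ^ τ
  have hδC : C * (δ0 / (C + 1)) ≤ δ0 := by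
    rw [mul_div_assoc', div_le_iff₀ (by positivity)]
    nlinarith
  have hpX : ∀ j, ∀ p ∈ B j, X j < p := fun j p hp => (mem_blk hRpos hp).2.1
  have hp1 : ∀ j, ∀ p ∈ B j, p ≠ 1 := fun j p hp => (mem_blk hRpos hp).1.one_lt.ne'
  have hp0 : ∀ j, ∀ p ∈ B j, (0 : ℝ) < (p : ℝ) ^ τ := fun j p hp =>
    Real.rpow_pos_of_pos (by exact_mod_cast (mem_blk hRpos hp).1.pos) _
  obtain ⟨m, u, hm, hu1, hu2, hu3, hu5, hu4⟩ := hcon V (fun h n => φ n h) B v r hne
    (fun j p hp => (mem_blk hRpos hp).1) hdisj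
    (fun j p hp => by
      simp only [v, hjj j p hp]
      have h1 := hp0 j p hp
      have h2 := hXτ j
      rw [abs_of_nonneg (by positivity), div_le_one h1]
      exact Real.rpow_le_rpow (by linarith [hX1 j]) (hpX j p hp).le hτ0.le)
    (fun n hn => by
      obtain ⟨h1, h2, -⟩ := hr n hn
      refine ⟨h1, h2.trans ?_⟩
      split_ifs <;> linarith)
    (by
      obtain ⟨-, h2, -⟩ := hr 1 le_rfl
      simp only [if_true] at h2
      exact h2.trans (hδC.trans hδ01))
    (fun h => by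
      obtain ⟨K, hK⟩ := hD h h.2
      have hN : ∀ y, 0 < y → (y ^ c + y ^ (c - 1)) * |(h : ℝ → ℝ) y| ≤ 2 * K := by
        intro z hz
        have e1 : z ^ c = z ^ (c - 1) * z := by
          rw [← Real.rpow_add_one hz.ne']; congr 1; ring
        have e2 : z ^ (c + 1) = z ^ (c - 1) * z * z := by
          rw [Real.rpow_add_one hz.ne', e1]
        have a1 : 0 < z ^ (c - 1) := by positivity
        have a2 : z ^ c + z ^ (c - 1) ≤ 2 * (z ^ (c + 1) + z ^ (c - 1)) := by
          rw [e2, e1]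
          nlinarith [mul_nonneg a1.le (sq_nonneg (z - 1)), mul_pos a1 (mul_pos hz hz)]
        calc _ ≤ 2 * (z ^ (c + 1) + z ^ (c - 1)) * |(h : ℝ → ℝ) z| := by gcongr
          _ = 2 * ((z ^ (c + 1) + z ^ (c - 1)) * |(h : ℝ → ℝ) z|) := by ring
          _ ≤ 2 * K := by gcongr; exact hK z hz
      have hK0 : 0 ≤ 2 * K := le_trans (by positivity) (hN 1 one_pos)
      refine ⟨(δ0 / (C + 1) + 1) / η ^ c * (2 * K), fun n hn => (hφ n hn h _ hN).trans ?_⟩
      have : 0 < δ0 / (C + 1) := by positivity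
      gcongr
      split_ifs <;> linarith)
    (fun h n hn => by
      obtain ⟨-, -, h3⟩ := hr n hn
      convert h3 h using 3 with j
      simp only [hS, avgL_apply]
      rw [mul_div_assoc', Finset.mul_sum]
      congr 1
      refine Finset.sum_congr rfl fun p hp => ?_
      have := hp0 j p hp
      simp only [v, hjj j p hp, φ, hp1 j p hp, if_false, LinearMap.smul_apply, hevL, smul_eq_mul]
      field_simp)
  have hle : ∀ p : ℕ, |u p * (p : ℝ) ^ τ| * (p : ℝ) ^ (-τ) ≤ |u p| := by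
    intro p
    rcases Nat.eq_zero_or_pos p with rfl | hp
    · simp [Real.zero_rpow hτ0.ne']
    · have hp' : (0 : ℝ) < p := by exact_mod_cast hp
      rw [abs_mul, abs_of_nonneg (a := (p : ℝ) ^ τ) (by positivity), mul_assoc,
        ← Real.rpow_add hp', add_neg_cancel, Real.rpow_zero, mul_one]
  have hsm : Summable fun p : ℕ => |u p * (p : ℝ) ^ τ| * (p : ℝ) ^ (-τ) :=
    hu3.of_nonneg_of_le (fun p => by positivity) hle
  refine ⟨fun p => u p * (p : ℝ) ^ τ, fun p => ?_, hsm, (hsm.tsum_le_tsum hle hu3).trans hu5,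
    fun h => ?_⟩
  · by_cases hp : ∃ j, p ∈ B j
    · obtain ⟨j, hp⟩ := hp
      have h1 := hp0 j p hp
      have h2 := hXτ j
      have h3 := hcard j
      have h4 : u p * (p : ℝ) ^ τ = m j * (X j ^ τ / (B j).card) := by
        rw [hu1 j p hp]
        simp only [v, hjj j p hp]
        field_simp
      change |u p * (p : ℝ) ^ τ| ≤ 1
      rw [h4, abs_mul, abs_of_nonneg (a := X j ^ τ / (B j).card) (by positivity)]
      have h5 : X j ^ τ / (B j).card ≤ 1 := by rw [div_le_one (by linarith)]; exact h3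
      exact mul_le_one₀ (hm j) (by positivity) h5
    · push Not at hp
      simp [hu2 p hp]
  · have h1 := (hu4 h).add (hasSum_ite_eq (1 : ℕ) (ℓ h))
    rw [zero_add] at h1
    convert h1 using 2 with n
    rw [ec_rpow]
    by_cases hn : n = 1
    · subst hn
      simp [φ, ec_one, hevL, hyy]
    · simp only [φ, hn, if_false, LinearMap.smul_apply, hevL, smul_eq_mul, hyy]
      ring

end Pool.Agent.H369Z.Err
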