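import Pool.Agent.H369Z.Err.Small
import Pool.Agent.H369Z.Pole.B
import Pool.Agent.H520Z.Sel.Pack
import Pool.Agent.H511Z.LamEval
import Pool.Agent.Helper242.KK.Gam1

/-! Entire members of the Selberg class, close to `1` on a half plane and of more than linear
growth on a vertical line to the left of it. -/

set_option autoImplicit false

namespace Pool.Agent.H369Z.Err

open MeasureTheory Set Filter Topology Pool.Agent.H520Z.Sel Pool.Agent.H949Z.Hecke

lemma decay_two {c K : ℝ} {h : ℝ → ℝ}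
    (hK : ∀ y, 0 < y → (y ^ (c + 1) + y ^ (c - 1)) * |h y| ≤ K) :
    ∀ y, 0 < y → (y ^ c + y ^ (c - 1)) * |h y| ≤ 2 * K := by
  intro z hz
  have e1 : z ^ c = z ^ (c - 1) * z := by
    rw [← Real.rpow_add_one hz.ne']; congr 1; ring
  have e2 : z ^ (c + 1) = z ^ (c - 1) * z * z := by
    rw [Real.rpow_add_one hz.ne', e1]
  have a1 : 0 < z ^ (c - 1) := by positivity
  have a2 : z ^ c + z ^ (c - 1) ≤ 2 * (z ^ (c + 1) + z ^ (c - 1)) := by
    rw [e2, e1]
    nlinarith [mul_nonneg a1.le (sq_nonneg (z - 1)), mul_pos a1 (mul_pos hz hz)]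
  calc _ ≤ 2 * (z ^ (c + 1) + z ^ (c - 1)) * |h z| := by gcongr
    _ = 2 * ((z ^ (c + 1) + z ^ (c - 1)) * |h z|) := by ring
    _ ≤ 2 * K := by gcongr; exact hK z hz

lemma theta_of_hasSum {lam η B C : ℝ} (hlam : 0 < lam) (hη : 0 < η) {a : ℕ → ℝ} (ha0 : a 0 = 0)
    (ha : ∀ n : ℕ, 1 ≤ n → |a n| ≤ C * (n : ℝ) ^ B) {t : ℝ} (ht : 0 < t)
    (h : HasSum (fun n : ℕ => a n * (Real.exp (-(t * (η * (n : ℝ) ^ (1 / lam)))) -
      t ^ (-lam) * Real.exp (-(η * (n : ℝ) ^ (1 / lam) / t)))) 0) :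
    ∑' n : ℕ, a n * Real.exp (-(t * (η * (n : ℝ) ^ (1 / lam)))) =
      t ^ (-lam) * ∑' n : ℕ, a n * Real.exp (-(η * (n : ℝ) ^ (1 / lam) / t)) := by
  have s1 : Summable fun n : ℕ => a n * Real.exp (-(t * (η * (n : ℝ) ^ (1 / lam)))) :=
    summable_th hlam hη ha0 ha ht
  have s2 : Summable fun n : ℕ => a n * Real.exp (-(η * (n : ℝ) ^ (1 / lam) / t)) := by
    refine (summable_th hlam hη ha0 ha (t := 1 / t) (by positivity)).congr fun n => ?_
    unfold yy
    congr 3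
    ring
  have s3 := s1.hasSum.sub (s2.hasSum.mul_left (t ^ (-lam)))
  have e : (fun n : ℕ => a n * Real.exp (-(t * (η * (n : ℝ) ^ (1 / lam)))) -
      t ^ (-lam) * (a n * Real.exp (-(η * (n : ℝ) ^ (1 / lam) / t)))) =
      fun n : ℕ => a n * (Real.exp (-(t * (η * (n : ℝ) ^ (1 / lam)))) -
        t ^ (-lam) * Real.exp (-(η * (n : ℝ) ^ (1 / lam) / t))) := by
    funext n
    ring
  rw [e] at s3
  linarith [s3.unique h]

theorem exists_spike (β γ : ℝ) (hβ : 1 / 2 < β) (hβγ : β < γ) (hγ : γ < 1) :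
    ∃ lam0 : ℝ, ∀ lam : ℝ, lam0 ≤ lam → ∃ (Q : ℝ) (x : ℕ → ℝ) (F : ℂ → ℂ), Exo lam Q x F ∧
      (∀ p, |x p| ≤ 1) ∧ Summable (fun p : ℕ => |x p| * (p : ℝ) ^ (-γ)) ∧
      ∑' p : ℕ, |x p| * (p : ℝ) ^ (-γ) ≤ 1 / 12 ∧
      ∀ K : ℝ, ∃ s : ℂ, s.re = β ∧ K * ‖s‖ < ‖F s‖ := by
  obtain ⟨L, hL1, hL⟩ := assemble2 γ hγ
  have hL0 : (0 : ℝ) ≤ L := Nat.cast_nonneg L
  have hgb : 0 < γ - β := by linarith
  have h12 : 0 < 12 / (γ - β) := by positivity
  refine ⟨6 * L + 12 / (γ - β) + 1, fun lam hlam => ?_⟩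
  have hlam1 : 1 ≤ lam := by linarith
  have hlam0 : 0 < lam := by linarith
  have hlam12 : 12 ≤ lam * (γ - β) := by
    have : 12 / (γ - β) * (γ - β) = 12 := by field_simp
    nlinarith
  set b : ℝ := lam * β with hb
  have hb2 : lam / 2 < b := by rw [hb]; nlinarith
  have hb1 : b ≤ lam := by rw [hb]; nlinarith
  set c1 : ℝ := b + 6 with hc1
  set c : ℝ := b + 12 with hc
  obtain ⟨hG, hH⟩ := mrep_gens lam b 1 c c1 one_pos hlam0 hb2 (by linarith) (by linarith)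
  obtain ⟨K0, K, A, hK0, hW, hp2, hp1⟩ := psi_bounds lam b 1 c c1 one_pos hlam0 hb2
    (by linarith) (by linarith)
  set W : ℝ → ℝ := fun u => K0 * (1 + |u|) ^ (5 / 2 - c) * Real.exp (Real.pi / 2 * |u|) with hWd
  have hW0 : ∀ u, 0 < W u := fun u => by simp only [hWd]; positivity
  set pt : ℕ → ℂ := fun n => (b : ℂ) + ((1 : ℝ) * (n : ℝ) : ℝ) * Complex.I with hpt
  have hptre : ∀ n, (pt n).re = b := fun n => by simp [hpt]
  have hptim : ∀ n, (pt n).im = n := fun n => by simp [hpt]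
  set S : Set (ℝ → ℝ) := {h | (∃ t : ℝ, 0 < t ∧
    h = fun y => Real.exp (-(t * y)) - t ^ (-lam) * Real.exp (-(y / t))) ∨
    ∃ n : ℕ, 1 ≤ n ∧ h = fun y => ((1 : ℂ) * Hw lam (pt n) y).re} with hS
  obtain ⟨C0, C1, hC0, hC1, hP, 𝒢, h𝒢, h𝒢b⟩ := poincare_gen lam c c1 A K (-1) (by simp)
    (Psi2 lam b 1 (c - 1 / 2)) (Psi1 lam b 1 c1) W S (by linarith) (by linarith) (by linarith)
    hW hp2 hp1 (by
      rintro h (⟨t, ht, rfl⟩ | ⟨n, hn, rfl⟩)
      · exact ⟨_, (hG t ht).1⟩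
      · obtain ⟨G, h1, -⟩ := (hH n 1 hn).1
        exact ⟨G, h1⟩)
  have hD := Pool.Agent.H369Z.Pole.decay_span c S (by
    rintro h (⟨t, ht, rfl⟩ | ⟨n, hn, rfl⟩)
    · exact (hG t ht).2
    · exact (hH n 1 hn).2)
  obtain ⟨η, hη, d, hd, hmain⟩ := hL (Submodule.span ℝ S) lam c c1 C0 (by linarith) (by linarith)
    hC0 (by rw [hc, hc1]; linarith) (by rw [hc, hb]; nlinarith) hP hD
  have hZs : Summable fun m : ℕ => 1 / ((m : ℝ) + 1) ^ 2 := by
    have := (summable_nat_add_iff 1).2 (Real.summable_one_div_nat_pow.2 (by norm_num : 1 < 2))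
    simpa using this
  set Z : ℝ := ∑' m : ℕ, 1 / ((m : ℝ) + 1) ^ 2 with hZ
  have hZ0 : 0 ≤ Z := tsum_nonneg fun m => by positivity
  set v : ℕ → ℝ := fun m => d / ((C1 + 1) * (Z + 1) * ((m : ℝ) + 1) ^ 2 * W m) with hv
  have hv0 : ∀ m, 0 < v m := fun m => by
    have := hW0 m
    simp only [hv]
    positivity
  have hterm : ∀ (h : Submodule.span ℝ S) (N : ℝ),
      (∀ y, 0 < y → (y ^ c + y ^ (c - 1)) * |(h : ℝ → ℝ) y| ≤ N) → ∀ m : ℕ,
      ‖v m * (𝒢 h (pt m)).re‖ ≤ d * N / (Z + 1) * (1 / ((m : ℝ) + 1) ^ 2) := by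
    intro h N hN m
    have hN0 : 0 ≤ N := le_trans (by positivity) (hN 1 one_pos)
    have k1 := h𝒢b h N hN (pt m) (by rw [hptre]; linarith) (by rw [hptre]; linarith)
    rw [hptim] at k1
    have k2 := (Complex.abs_re_le_norm _).trans k1
    have k3 := hW0 m
    rw [Real.norm_eq_abs, abs_mul, abs_of_pos (hv0 m)]
    calc v m * |(𝒢 h (pt m)).re| ≤ v m * ((C1 + 1) * N * W m) := by
          refine mul_le_mul_of_nonneg_left (k2.trans ?_) (hv0 m).le
          gcongr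
          linarith
      _ = _ := by
          simp only [hv]
          field_simp
  have hsm : ∀ h : Submodule.span ℝ S, Summable fun m : ℕ => v m * (𝒢 h (pt m)).re := by
    intro h
    obtain ⟨K', hK'⟩ := hD h h.2
    exact Summable.of_norm_bounded (hZs.mul_left _) (hterm h _ (decay_two hK'))
  have hsm1 : ∀ h : Submodule.span ℝ S,
      Summable fun m : ℕ => v (m + 1) * (𝒢 h (pt (m + 1))).re := fun h =>
    (summable_nat_add_iff 1).2 (hsm h)
  let l : Submodule.span ℝ S →ₗ[ℝ] ℝ :=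
    { toFun := fun h => ∑' m : ℕ, v (m + 1) * (𝒢 h (pt (m + 1))).re
      map_add' := fun h h' => by
        rw [← (hsm1 h).tsum_add (hsm1 h')]
        refine tsum_congr fun m => ?_
        rw [map_add, Pi.add_apply, Complex.add_re, mul_add]
      map_smul' := fun r h => by
        rw [RingHom.id_apply, smul_eq_mul, ← tsum_mul_left]
        refine tsum_congr fun m => ?_
        rw [map_smul, Pi.smul_apply, Complex.real_smul, Complex.re_ofReal_mul]
        ring }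
  obtain ⟨x, hx, hxs, hxs2, hsum⟩ := hmain η hη le_rfl l (by
    intro h N hN
    have hN0 : 0 ≤ N := le_trans (by positivity) (hN 1 one_pos)
    have k1 : ‖∑' m : ℕ, v (m + 1) * (𝒢 h (pt (m + 1))).re‖ ≤ d * N / (Z + 1) * Z := by
      refine tsum_of_norm_bounded (hZs.hasSum.mul_left _) fun m => (hterm h N hN (m + 1)).trans ?_
      push_cast
      gcongr
      linarith
    refine k1.trans ?_
    rw [div_mul_eq_mul_div, div_le_iff₀ (by linarith)]
    have : 0 ≤ d * N := by positivity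
    nlinarith)
  have hcγ : c / lam ≤ γ := by rw [div_le_iff₀ hlam0, hc, hb]; nlinarith
  have hc0 : 0 < c / lam := by rw [hc]; positivity
  have hle : ∀ p : ℕ, |x p| * (p : ℝ) ^ (-γ) ≤ |x p| * (p : ℝ) ^ (-(c / lam)) := by
    intro p
    rcases Nat.eq_zero_or_pos p with rfl | hp
    · rw [Nat.cast_zero, Real.zero_rpow (by linarith), Real.zero_rpow (by linarith)]
    · have h4 : (1 : ℝ) ≤ p := by exact_mod_cast hp
      exact mul_le_mul_of_nonneg_left (Real.rpow_le_rpow_of_exponent_le h4 (by linarith))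
        (abs_nonneg _)
  have hxγ : Summable fun p : ℕ => |x p| * (p : ℝ) ^ (-γ) :=
    hxs.of_nonneg_of_le (fun p => by positivity) hle
  have hxc : ∀ p : ℕ, p.Prime → |x p| ≤ 1 + Real.log p := fun p _ => by
    linarith [hx p, Real.log_natCast_nonneg p]
  obtain ⟨C, hC⟩ := ec_ram x hxc 1 one_pos
  have hFE : ∀ t : ℝ, 0 < t →
      ∑' n : ℕ, ec x n * Real.exp (-(t * (η * (n : ℝ) ^ (1 / lam)))) =
        t ^ (-lam) * ∑' n : ℕ, ec x n * Real.exp (-(η * (n : ℝ) ^ (1 / lam) / t)) := by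
    intro t ht
    have hmem : (fun y => Real.exp (-(t * y)) - t ^ (-lam) * Real.exp (-(y / t))) ∈
        Submodule.span ℝ S := Submodule.subset_span (Or.inl ⟨t, ht, rfl⟩)
    have k1 := hsum ⟨_, hmem⟩
    have k2 : l ⟨_, hmem⟩ = 0 := by
      show ∑' m : ℕ, v (m + 1) * (𝒢 ⟨_, hmem⟩ (pt (m + 1))).re = 0
      rw [h𝒢 ⟨_, hmem⟩ _ (hG t ht).1]
      have : ∀ m : ℕ, Pz lam b 1 (pt m) = 0 := fun m => by
        have := H413.Pz_zero lam b one_pos (m : ℤ)
        simpa [hpt] using this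
      simp [this]
    rw [k2] at k1
    exact theta_of_hasSum hlam0 hη (ec_zero x) hC ht k1
  obtain ⟨F, hF⟩ := exo_of_theta lam η hlam0 hη x hxc hFE
  refine ⟨_, x, F, hF, hx, hxγ, (hxγ.tsum_le_tsum hle hxs).trans hxs2, fun K' => ?_⟩
  set κ : ℝ := Real.pi / 1 * Real.sinh (Real.pi * (2 * b - lam) / 1) / 2 with hκ
  have hκ0 : 0 < κ := by
    have : 0 < Real.sinh (Real.pi * (2 * b - lam) / 1) :=
      Real.sinh_pos_iff.2 (div_pos (mul_pos Real.pi_pos (by linarith)) one_pos)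
    have := Real.pi_pos
    positivity
  have hl : (lam : ℂ) ≠ 0 := by exact_mod_cast hlam0.ne'
  have hb0 : 0 < b := by linarith
  have hGb : 0 < Real.Gamma b := Real.Gamma_pos_of_pos hb0
  set q : ℝ := (η ^ (-lam)) ^ β with hq
  have hq0 : 0 < q := by positivity
  set D : ℝ := q * (Real.exp 1 * Real.Gamma b * (Real.pi / 2) ^ b) *
    ((C1 + 1) * (Z + 1) * K0) / (d * κ) with hDd
  have hD0 : 0 < D := by positivity
  have key : ∀ n : ℕ, 1 ≤ n → ((n : ℝ) + 1) ^ 2 ≤ D * ‖F (pt n / lam)‖ := by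
    intro n hn
    have hre : (pt n / lam).re = β := by
      rw [Complex.div_ofReal_re, hptre, hb]
      field_simp
    have hmem : (fun y => ((1 : ℂ) * Hw lam (pt n) y).re) ∈ Submodule.span ℝ S :=
      Submodule.subset_span (Or.inr ⟨n, hn, rfl⟩)
    have k1 := hsum ⟨_, hmem⟩
    have k2 : l ⟨_, hmem⟩ = v n * κ := by
      show ∑' m : ℕ, v (m + 1) * (𝒢 ⟨_, hmem⟩ (pt (m + 1))).re = _
      obtain ⟨G, g1, g2⟩ := (hH n 1 hn).1
      rw [h𝒢 ⟨_, hmem⟩ _ g1, tsum_eq_single (n - 1)]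
      · rw [Nat.sub_add_cancel hn]
        have := g2 n hn
        rw [if_pos rfl] at this
        change G (pt n) = _ at this
        rw [this, one_mul, Complex.ofReal_re]
      · intro m hm
        have := g2 (m + 1) (by omega)
        rw [if_neg (by omega)] at this
        change G (pt (m + 1)) = _ at this
        rw [this]
        simp
    rw [k2] at k1
    have k3 := lambda_eval lam η 1 C 1 hlam0 hη (ec x) (ec_zero x) hC hFE F hF.diff hF.ser
      (pt n / lam) (by rw [hre]; linarith)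
    rw [mul_div_cancel₀ _ hl] at k3
    have k4 := Complex.hasSum_re k3
    have k5 : v n * κ = (((η ^ (-lam) : ℝ) : ℂ) ^ (pt n / lam) * Complex.Gamma (pt n) *
        F (pt n / lam)).re := by
      refine k1.unique ?_
      convert k4 using 2 with m
      rw [Complex.re_ofReal_mul]
      simp only [one_mul]
    have k6 := (le_abs_self _).trans (Complex.abs_re_le_norm
      (((η ^ (-lam) : ℝ) : ℂ) ^ (pt n / lam) * Complex.Gamma (pt n) * F (pt n / lam)))
    rw [← k5, norm_mul, norm_mul, Complex.norm_cpow_eq_rpow_re_of_pos (by positivity), hre] at k6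
    have k7 := Pool.Agent.Helper242.KK.norm_Gamma_le ((1 : ℝ) * (n : ℝ)) hb0
    have hn0 : (0 : ℝ) ≤ n := Nat.cast_nonneg n
    rw [one_mul, abs_of_nonneg hn0, Real.mul_rpow (by positivity) (by positivity),
      Real.exp_sub] at k7
    have k8 : ‖Complex.Gamma (pt n)‖ ≤ Real.exp 1 / Real.exp (Real.pi / 2 * n) * Real.Gamma b *
        ((Real.pi / 2) ^ b * (1 + n) ^ b) := by
      simpa [hpt] using k7
    have k9 : v n * κ ≤ q * (Real.exp 1 / Real.exp (Real.pi / 2 * n) * Real.Gamma b *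
        ((Real.pi / 2) ^ b * (1 + n) ^ b)) * ‖F (pt n / lam)‖ := k6.trans (by gcongr)
    have hu1 : (0 : ℝ) < 1 + n := by positivity
    have k10 : (1 + (n : ℝ)) ^ (5 / 2 - c) * (1 + (n : ℝ)) ^ b * ((n : ℝ) + 1) ^ 4 ≤ 1 := by
      rw [add_comm (n : ℝ) 1, ← Real.rpow_natCast, ← Real.rpow_add hu1, ← Real.rpow_add hu1]
      exact Real.rpow_le_one_of_one_le_of_nonpos (by linarith) (by rw [hc]; push_cast; linarith)
    have he : 0 < Real.exp (Real.pi / 2 * n) := Real.exp_pos _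
    have hr1 : 0 < (1 + (n : ℝ)) ^ (5 / 2 - c) := by positivity
    have hr2 : 0 < (1 + (n : ℝ)) ^ b := by positivity
    have k11 : v n * κ * ((C1 + 1) * (Z + 1) * ((n : ℝ) + 1) ^ 2 * W n) = d * κ := by
      have := hW0 n
      simp only [hv]
      field_simp
    have k12 : d * κ ≤ q * (Real.exp 1 / Real.exp (Real.pi / 2 * n) * Real.Gamma b *
        ((Real.pi / 2) ^ b * (1 + n) ^ b)) * ‖F (pt n / lam)‖ *
        ((C1 + 1) * (Z + 1) * ((n : ℝ) + 1) ^ 2 * W n) := by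
      rw [← k11]
      have := hW0 n
      gcongr
    have k13 : q * (Real.exp 1 / Real.exp (Real.pi / 2 * n) * Real.Gamma b *
        ((Real.pi / 2) ^ b * (1 + n) ^ b)) * ‖F (pt n / lam)‖ *
        ((C1 + 1) * (Z + 1) * ((n : ℝ) + 1) ^ 2 * W n) =
        d * κ * (D * ‖F (pt n / lam)‖) *
          ((1 + (n : ℝ)) ^ (5 / 2 - c) * (1 + (n : ℝ)) ^ b * ((n : ℝ) + 1) ^ 2) := by
      simp only [hWd, hDd, abs_of_nonneg hn0]
      field_simp
    rw [k13, mul_assoc] at k12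
    have k14 : 1 ≤ D * ‖F (pt n / lam)‖ *
        ((1 + (n : ℝ)) ^ (5 / 2 - c) * (1 + (n : ℝ)) ^ b * ((n : ℝ) + 1) ^ 2) := by
      have hdk : 0 < d * κ := by positivity
      exact le_of_mul_le_mul_left (by linarith) hdk
    have k15 : 0 ≤ D * ‖F (pt n / lam)‖ := by positivity
    have k16 := mul_le_mul_of_nonneg_left k10 k15
    have k17 := mul_le_mul_of_nonneg_right k14 (by positivity : (0 : ℝ) ≤ ((n : ℝ) + 1) ^ 2)
    calc ((n : ℝ) + 1) ^ 2 = 1 * ((n : ℝ) + 1) ^ 2 := by ring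
      _ ≤ _ := k17
      _ = D * ‖F (pt n / lam)‖ *
          ((1 + (n : ℝ)) ^ (5 / 2 - c) * (1 + (n : ℝ)) ^ b * ((n : ℝ) + 1) ^ 4) := by ring
      _ ≤ _ := k16
      _ = _ := by ring
  obtain ⟨n, hn⟩ := exists_nat_gt (D * |K'| + 1)
  have hDK : 0 ≤ D * |K'| := by positivity
  have hn1 : 1 ≤ n := by
    have : (1 : ℝ) < n := by linarith
    exact_mod_cast this.le
  refine ⟨pt n / lam, ?_, ?_⟩
  · rw [Complex.div_ofReal_re, hptre, hb]
    field_simp
  · have hn0 : (0 : ℝ) ≤ n := Nat.cast_nonneg n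
    have k1 : ‖pt n / lam‖ ≤ n + 1 := by
      rw [norm_div, Complex.norm_real, Real.norm_eq_abs, abs_of_pos hlam0, div_le_iff₀ hlam0]
      refine (Complex.norm_le_abs_re_add_abs_im _).trans ?_
      rw [hptre, hptim, abs_of_pos hb0, abs_of_nonneg hn0]
      nlinarith
    have k2 := key n hn1
    have k3 : K' * ‖pt n / lam‖ ≤ |K'| * (n + 1) :=
      mul_le_mul (le_abs_self _) k1 (norm_nonneg _) (abs_nonneg _)
    have k4 : D * (|K'| * (n + 1)) < D * ‖F (pt n / lam)‖ := by nlinarith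
    exact k3.trans_lt (lt_of_mul_lt_mul_left k4 hD0.le)

end Pool.Agent.H369Z.Err
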